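import Mathlib

/-!
Finsler metrics on open subsets of coordinate space `ℝⁿ`, in coordinates: fundamental tensor,
spray, Riemann curvature, flag curvature, Ricci scalar, Busemann-Hausdorff density, distortion,
geodesics, S-curvature, isometries.
-/

set_option autoImplicit false
open Matrix MeasureTheory

namespace Pool.Agent.H63.Fins

/-- Coordinate space. -/
abbrev V (n : ℕ) := Fin n → ℝ

variable {n : ℕ}

/-- Partial derivative `∂H/∂xⁱ` of a function `H(x,y)` in the position variable. -/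
noncomputable def pdx (i : Fin n) (H : V n → V n → ℝ) (x y : V n) : ℝ :=
  deriv (fun t => H (Function.update x i t) y) (x i)

/-- Partial derivative `∂H/∂yⁱ` of a function `H(x,y)` in the direction variable. -/
noncomputable def pdy (i : Fin n) (H : V n → V n → ℝ) (x y : V n) : ℝ :=
  deriv (fun t => H x (Function.update y i t)) (y i)

/-- Fundamental tensor `g_ij(x,y) = (1/2) ∂²F²/∂yⁱ∂yʲ`. -/
noncomputable def fund (F : V n → V n → ℝ) (x y : V n) : Matrix (Fin n) (Fin n) ℝ :=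
  fun i j => (1 / 2) * pdy i (pdy j (fun x y => F x y ^ 2)) x y

/-- The inner product `g_y(u,v)` at the point `x`. -/
noncomputable def ip (F : V n → V n → ℝ) (x y u v : V n) : ℝ := u ⬝ᵥ (fund F x y *ᵥ v)

/-- `F` is a Finsler metric on the open set `U`. -/
structure IsFinsler (U : Set (V n)) (F : V n → V n → ℝ) : Prop where
  nonneg : ∀ x ∈ U, ∀ y, 0 ≤ F x y
  smooth : ContDiffOn ℝ (⊤ : ℕ∞) (fun p : V n × V n => F p.1 p.2) {p | p.1 ∈ U ∧ p.2 ≠ 0}
  homog : ∀ x ∈ U, ∀ y, ∀ c : ℝ, 0 < c → F x (c • y) = c * F x y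
  posDef : ∀ x ∈ U, ∀ y, y ≠ 0 → (fund F x y).PosDef

/-- `F` is Riemannian: `F(x,y) = √(h_x(y,y))` for some field of symmetric bilinear forms. -/
def IsRiemannian (U : Set (V n)) (F : V n → V n → ℝ) : Prop :=
  ∃ h : V n → Matrix (Fin n) (Fin n) ℝ, ∀ x ∈ U, ∀ y, F x y = Real.sqrt (y ⬝ᵥ (h x *ᵥ y))

/-- `(U,F)` is homogeneous: for any two points there is a diffeomorphism `φ` of `U` (with inverse
`ψ`) preserving `F` and taking the first point to the second. -/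
def IsHomogeneous (U : Set (V n)) (F : V n → V n → ℝ) : Prop :=
  ∀ x ∈ U, ∀ x' ∈ U, ∃ φ ψ : V n → V n,
    ContDiffOn ℝ (⊤ : ℕ∞) φ U ∧ ContDiffOn ℝ (⊤ : ℕ∞) ψ U ∧
    Set.MapsTo φ U U ∧ Set.MapsTo ψ U U ∧
    (∀ z ∈ U, ψ (φ z) = z) ∧ (∀ z ∈ U, φ (ψ z) = z) ∧
    (∀ z ∈ U, ∀ v : V n, F (φ z) (fderiv ℝ φ z v) = F z v) ∧ φ x = x'

/-- Spray coefficients `Gⁱ = (1/4) gⁱˡ (yᵏ ∂²F²/∂xᵏ∂yˡ - ∂F²/∂xˡ)`. -/
noncomputable def spray (F : V n → V n → ℝ) (x y : V n) (i : Fin n) : ℝ :=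
  (1 / 4) * ∑ l, (fund F x y)⁻¹ i l *
    ((∑ k, y k * pdx k (pdy l (fun x y => F x y ^ 2)) x y) - pdx l (fun x y => F x y ^ 2) x y)

/-- Riemann curvature `Rⁱ_k = 2 ∂Gⁱ/∂xᵏ - yʲ ∂²Gⁱ/∂xʲ∂yᵏ + 2 Gʲ ∂²Gⁱ/∂yʲ∂yᵏ
- (∂Gⁱ/∂yʲ)(∂Gʲ/∂yᵏ)`. -/
noncomputable def riem (F : V n → V n → ℝ) (x y : V n) : Matrix (Fin n) (Fin n) ℝ :=
  fun i k =>
    2 * pdx k (fun x y => spray F x y i) x y
      - ∑ j, y j * pdx j (pdy k (fun x y => spray F x y i)) x y
      + 2 * ∑ j, spray F x y j * pdy j (pdy k (fun x y => spray F x y i)) x y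
      - ∑ j, pdy j (fun x y => spray F x y i) x y * pdy k (fun x y => spray F x y j) x y

/-- Flag curvature `K(y, span{y,u})`. -/
noncomputable def flagK (F : V n → V n → ℝ) (x y u : V n) : ℝ :=
  ip F x y (riem F x y *ᵥ u) u / (ip F x y y y * ip F x y u u - ip F x y y u ^ 2)

/-- Ricci scalar: the trace of the Riemann curvature. -/
noncomputable def ricci (F : V n → V n → ℝ) (x y : V n) : ℝ := (riem F x y).trace

/-- `e` is a `g_y`-orthonormal family in the `g_y`-orthogonal complement of `y`. -/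
def IsFrame {m : ℕ} (F : V n → V n → ℝ) (x y : V n) (e : Fin m → V n) : Prop :=
  (∀ i j, ip F x y (e i) (e j) = if i = j then 1 else 0) ∧ ∀ i, ip F x y y (e i) = 0

/-- Density of the Busemann-Hausdorff volume form: Euclidean volume of the unit ball divided by
the Lebesgue measure of the indicatrix body `{y | F(x,y) < 1}`. -/
noncomputable def sigmaBH (F : V n → V n → ℝ) (x : V n) : ℝ :=
  (volume (Metric.ball (0 : EuclideanSpace ℝ (Fin n)) 1)).toReal /
    (volume {y : V n | F x y < 1}).toReal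

/-- Distortion `τ(x,y) = log (√det g_ij(x,y) / σ(x))`. -/
noncomputable def distortion (F : V n → V n → ℝ) (x y : V n) : ℝ :=
  Real.log (Real.sqrt (fund F x y).det / sigmaBH F x)

/-- `γ` with velocity `w` is a (nonconstant) geodesic of `(U,F)` on the interval `(-ε,ε)` with
`γ(0) = x`, `γ'(0) = y`: `γ' = w ≠ 0` and `w' = -2 G(γ,w)`. -/
def IsGeodesic (U : Set (V n)) (F : V n → V n → ℝ) (x y : V n) (ε : ℝ) (γ w : ℝ → V n) : Prop :=
  γ 0 = x ∧ w 0 = y ∧ ∀ t ∈ Set.Ioo (-ε) ε, γ t ∈ U ∧ w t ≠ 0 ∧ HasDerivAt γ (w t) t ∧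
    HasDerivAt w (fun i => -2 * spray F (γ t) (w t) i) t

/-- The S-curvature of `F` at `(x,y)` equals `s`: there is a geodesic with initial velocity `y`
at `x`, and along every such geodesic the derivative of the distortion at time `0` is `s`. -/
def HasSCurvature (U : Set (V n)) (F : V n → V n → ℝ) (x y : V n) (s : ℝ) : Prop :=
  (∃ ε > 0, ∃ γ w : ℝ → V n, IsGeodesic U F x y ε γ w) ∧
  ∀ ε > 0, ∀ γ w : ℝ → V n, IsGeodesic U F x y ε γ w →
    HasDerivAt (fun t => distortion F (γ t) (w t)) s 0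

end Pool.Agent.H63.Fins
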