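import Mathlib
import Pool.Agent.H63.Fins.Defs

set_option autoImplicit false
set_option linter.unusedSimpArgs false
open Matrix MeasureTheory

namespace Pool.Agent.H63.Fins

/-- squared norm of the first component -/
noncomputable def aa (x y : V 4) : ℝ := (y 0 ^ 2 + y 1 ^ 2) / (x 1) ^ 2
/-- squared norm of the second component -/
noncomputable def bb (x y : V 4) : ℝ := (y 2 ^ 2 + y 3 ^ 2) / (x 3) ^ 2

def PP (α β : ℝ) : ℝ := α ^ 2 + α * β + β ^ 2

noncomputable def S (α β : ℝ) : ℝ := Real.sqrt (PP α β)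
noncomputable def A1 (α β : ℝ) : ℝ := (2 * α + β) / S α β
noncomputable def B1 (α β : ℝ) : ℝ := (α + 2 * β) / S α β

/-- the metric of the example on `H² × H²` -/
noncomputable def FF (x y : V 4) : ℝ := Real.sqrt (S (aa x y) (bb x y))

lemma FF_sq : (fun x y : V 4 => FF x y ^ 2) = fun x y => S (aa x y) (bb x y) := by
  funext x y
  exact Real.sq_sqrt (Real.sqrt_nonneg _)

lemma S_sq (α β : ℝ) (hP : 0 < PP α β) : S α β ^ 2 = PP α β := Real.sq_sqrt hP.le

lemma S_pos (α β : ℝ) (hP : 0 < PP α β) : 0 < S α β := Real.sqrt_pos.2 hP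

lemma S_deriv {α β : ℝ → ℝ} {α1 β1 t : ℝ} (hα : HasDerivAt α α1 t) (hβ : HasDerivAt β β1 t)
    (hP : 0 < PP (α t) (β t)) :
    HasDerivAt (fun s => S (α s) (β s))
      (((2 * α t + β t) * α1 + (α t + 2 * β t) * β1) / (2 * S (α t) (β t))) t := by
  unfold S
  have h1 : HasDerivAt (fun s => PP (α s) (β s)) ((2 * α t + β t) * α1 + (α t + 2 * β t) * β1) t := by
    unfold PP
    have := ((hα.pow 2).add (hα.mul hβ)).add (hβ.pow 2)
    refine this.congr_deriv ?_
    simp
    ring
  exact h1.sqrt hP.ne'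

lemma A1_deriv {α β : ℝ → ℝ} {α1 β1 t : ℝ} (hα : HasDerivAt α α1 t) (hβ : HasDerivAt β β1 t)
    (hP : 0 < PP (α t) (β t)) :
    HasDerivAt (fun s => A1 (α s) (β s))
      (3 * β t * (β t * α1 - α t * β1) / (2 * S (α t) (β t) ^ 3)) t := by
  unfold A1
  have h1 := S_deriv hα hβ hP
  have hS := S_pos _ _ hP
  have hS2 := S_sq _ _ hP
  have h2 := ((hα.const_mul 2).add hβ).div h1 hS.ne'
  refine h2.congr_deriv ?_
  simp only [Pi.add_apply]
  field_simp
  rw [hS2]
  unfold PP
  ring

lemma B1_deriv {α β : ℝ → ℝ} {α1 β1 t : ℝ} (hα : HasDerivAt α α1 t) (hβ : HasDerivAt β β1 t)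
    (hP : 0 < PP (α t) (β t)) :
    HasDerivAt (fun s => B1 (α s) (β s))
      (3 * α t * (α t * β1 - β t * α1) / (2 * S (α t) (β t) ^ 3)) t := by
  unfold B1
  have h1 := S_deriv hα hβ hP
  have hS := S_pos _ _ hP
  have hS2 := S_sq _ _ hP
  have h2 := (hα.add (hβ.const_mul 2)).div h1 hS.ne'
  refine h2.congr_deriv ?_
  simp only [Pi.add_apply]
  field_simp
  rw [hS2]
  unfold PP
  ring

/-- the domain -/
def U : Set (V 4) := {x | 0 < x 1 ∧ 0 < x 3}

/-- the slit tangent bundle -/
def O : Set (V 4 × V 4) := {p | p.1 ∈ U ∧ p.2 ≠ 0}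

lemma PP_pos (x y : V 4) (h : (x, y) ∈ O) : 0 < PP (aa x y) (bb x y) := by
  obtain ⟨⟨h1, h3⟩, hy⟩ := h
  simp only at h1 h3 hy
  have ha : 0 ≤ aa x y := by unfold aa; positivity
  have hb : 0 ≤ bb x y := by unfold bb; positivity
  have hab : 0 < aa x y + bb x y := by
    by_contra hcon
    have ha0 : aa x y = 0 := by linarith
    have hb0 : bb x y = 0 := by linarith
    unfold aa at ha0
    unfold bb at hb0
    rw [div_eq_zero_iff] at ha0 hb0
    have h1' : y 0 ^ 2 + y 1 ^ 2 = 0 := by
      rcases ha0 with h | h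
      · exact h
      · exfalso; have := pow_pos h1 2; linarith
    have h2' : y 2 ^ 2 + y 3 ^ 2 = 0 := by
      rcases hb0 with h | h
      · exact h
      · exfalso; have := pow_pos h3 2; linarith
    apply hy
    have e0 : y 0 = 0 := by nlinarith [sq_nonneg (y 0), sq_nonneg (y 1)]
    have e1 : y 1 = 0 := by nlinarith [sq_nonneg (y 0), sq_nonneg (y 1)]
    have e2 : y 2 = 0 := by nlinarith [sq_nonneg (y 2), sq_nonneg (y 3)]
    have e3 : y 3 = 0 := by nlinarith [sq_nonneg (y 2), sq_nonneg (y 3)]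
    funext i
    fin_cases i <;> simp [e0, e1, e2, e3]
  unfold PP
  nlinarith [mul_nonneg ha hb, mul_pos hab hab]

lemma O_open_y (x y : V 4) (h : (x, y) ∈ O) (i : Fin 4) :
    ∀ᶠ t in nhds (y i), (x, Function.update y i t) ∈ O := by
  obtain ⟨hx, hy⟩ := h
  have h1 : Continuous (fun t : ℝ => Function.update y i t) := continuous_const.update i continuous_id
  have h2 : ∀ᶠ z in nhds (Function.update y i (y i)), z ≠ 0 := by
    rw [Function.update_eq_self]
    exact isOpen_ne.mem_nhds hy
  have h3 := h1.continuousAt.eventually h2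
  filter_upwards [h3] with t ht
  exact ⟨hx, ht⟩

lemma U_open : IsOpen U := by
  have h1 : IsOpen {x : V 4 | 0 < x 1} := isOpen_lt continuous_const (continuous_apply 1)
  have h3 : IsOpen {x : V 4 | 0 < x 3} := isOpen_lt continuous_const (continuous_apply 3)
  exact h1.inter h3

lemma O_open_x (x y : V 4) (h : (x, y) ∈ O) (i : Fin 4) :
    ∀ᶠ t in nhds (x i), (Function.update x i t, y) ∈ O := by
  obtain ⟨hx, hy⟩ := h
  have h1 : Continuous (fun t : ℝ => Function.update x i t) := continuous_const.update i continuous_id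
  have h2 : ∀ᶠ z in nhds (Function.update x i (x i)), z ∈ U := by
    rw [Function.update_eq_self]
    exact U_open.mem_nhds hx
  have h3 := h1.continuousAt.eventually h2
  filter_upwards [h3] with t ht
  exact ⟨ht, hy⟩

/-- equality on `O` passes to the partial derivatives -/
lemma pdy_congr (H H' : V 4 → V 4 → ℝ) (hH : ∀ x y, (x, y) ∈ O → H x y = H' x y) (i : Fin 4)
    (x y : V 4) (h : (x, y) ∈ O) : pdy i H x y = pdy i H' x y := by
  unfold pdy
  apply Filter.EventuallyEq.deriv_eq
  filter_upwards [O_open_y x y h i] with t ht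
  exact hH _ _ ht

lemma pdx_congr (H H' : V 4 → V 4 → ℝ) (hH : ∀ x y, (x, y) ∈ O → H x y = H' x y) (i : Fin 4)
    (x y : V 4) (h : (x, y) ∈ O) : pdx i H x y = pdx i H' x y := by
  unfold pdx
  apply Filter.EventuallyEq.deriv_eq
  filter_upwards [O_open_x x y h i] with t ht
  exact hH _ _ ht

/-- derivative of `aa`, `bb` in the direction `y i` -/
noncomputable def day (i : Fin 4) (x y : V 4) : ℝ := ![2 * y 0 / (x 1) ^ 2, 2 * y 1 / (x 1) ^ 2, 0, 0] i
noncomputable def dby (i : Fin 4) (x y : V 4) : ℝ := ![0, 0, 2 * y 2 / (x 3) ^ 2, 2 * y 3 / (x 3) ^ 2] i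
noncomputable def dax (i : Fin 4) (x y : V 4) : ℝ := ![0, -2 * aa x y / x 1, 0, 0] i
noncomputable def dbx (i : Fin 4) (x y : V 4) : ℝ := ![0, 0, 0, -2 * bb x y / x 3] i

lemma hasDerivAt_aa_y (i : Fin 4) (x y : V 4) :
    HasDerivAt (fun t => aa x (Function.update y i t)) (day i x y) (y i) := by
  unfold aa day
  fin_cases i
  · simp [Function.update_apply]
    have := (((hasDerivAt_id (y 0)).pow 2).add_const (y 1 ^ 2)).div_const ((x 1) ^ 2)
    simpa using this
  · simp [Function.update_apply]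
    have := (((hasDerivAt_id (y 1)).pow 2).const_add (y 0 ^ 2)).div_const ((x 1) ^ 2)
    simpa using this
  · simp [Function.update_apply]
    exact hasDerivAt_const _ _
  · simp [Function.update_apply]
    exact hasDerivAt_const _ _

lemma hasDerivAt_bb_y (i : Fin 4) (x y : V 4) :
    HasDerivAt (fun t => bb x (Function.update y i t)) (dby i x y) (y i) := by
  unfold bb dby
  fin_cases i
  · simp [Function.update_apply]
    exact hasDerivAt_const _ _
  · simp [Function.update_apply]
    exact hasDerivAt_const _ _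
  · simp [Function.update_apply]
    have := (((hasDerivAt_id (y 2)).pow 2).add_const (y 3 ^ 2)).div_const ((x 3) ^ 2)
    simpa using this
  · simp [Function.update_apply]
    have := (((hasDerivAt_id (y 3)).pow 2).const_add (y 2 ^ 2)).div_const ((x 3) ^ 2)
    simpa using this

lemma hasDerivAt_aa_x (i : Fin 4) (x y : V 4) (hx : x ∈ U) :
    HasDerivAt (fun t => aa (Function.update x i t) y) (dax i x y) (x i) := by
  have h1 : x 1 ≠ 0 := hx.1.ne'
  unfold dax
  fin_cases i
  · simp [Function.update_apply, aa]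
    exact hasDerivAt_const _ _
  · simp [Function.update_apply, aa]
    have := (hasDerivAt_const (x 1) (y 0 ^ 2 + y 1 ^ 2)).div ((hasDerivAt_id (x 1)).pow 2)
      (pow_ne_zero 2 h1)
    refine this.congr_deriv ?_
    simp
    field_simp
  · simp [Function.update_apply, aa]
    exact hasDerivAt_const _ _
  · simp [Function.update_apply, aa]
    exact hasDerivAt_const _ _

lemma hasDerivAt_bb_x (i : Fin 4) (x y : V 4) (hx : x ∈ U) :
    HasDerivAt (fun t => bb (Function.update x i t) y) (dbx i x y) (x i) := by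
  have h1 : x 3 ≠ 0 := hx.2.ne'
  unfold dbx
  fin_cases i
  · simp [Function.update_apply, bb]
    exact hasDerivAt_const _ _
  · simp [Function.update_apply, bb]
    exact hasDerivAt_const _ _
  · simp [Function.update_apply, bb]
    exact hasDerivAt_const _ _
  · simp [Function.update_apply, bb]
    have := (hasDerivAt_const (x 3) (y 2 ^ 2 + y 3 ^ 2)).div ((hasDerivAt_id (x 3)).pow 2)
      (pow_ne_zero 2 h1)
    refine this.congr_deriv ?_
    simp
    field_simp

end Pool.Agent.H63.Fins
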