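import Mathlib
import Pool.Agent.H63.Fins.Calc

set_option autoImplicit false
set_option linter.unusedSimpArgs false
open Matrix MeasureTheory

namespace Pool.Agent.H63.Fins

noncomputable def AA (x y : V 4) : ℝ := A1 (aa x y) (bb x y)
noncomputable def BB (x y : V 4) : ℝ := B1 (aa x y) (bb x y)
noncomputable def SS (x y : V 4) : ℝ := S (aa x y) (bb x y)

noncomputable def cc (j : Fin 4) (x y : V 4) : ℝ := ![AA x y, AA x y, BB x y, BB x y] j
noncomputable def ss (j : Fin 4) (x : V 4) : ℝ := ![(x 1) ^ 2, (x 1) ^ 2, (x 3) ^ 2, (x 3) ^ 2] j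
noncomputable def ww (j : Fin 4) (x y : V 4) : ℝ :=
  ![bb x y * y 0 / (x 1) ^ 2, bb x y * y 1 / (x 1) ^ 2, -(aa x y * y 2 / (x 3) ^ 2),
    -(aa x y * y 3 / (x 3) ^ 2)] j

/-- first `y`-derivatives of `F²` -/
noncomputable def L1 (j : Fin 4) (x y : V 4) : ℝ := cc j x y * y j / ss j x

lemma SS_pos (x y : V 4) (h : (x, y) ∈ O) : 0 < SS x y := S_pos _ _ (PP_pos x y h)

lemma AA_eq (x y : V 4) : AA x y = (2 * aa x y + bb x y) / SS x y := rfl
lemma BB_eq (x y : V 4) : BB x y = (aa x y + 2 * bb x y) / SS x y := rfl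

lemma pdy_L (j : Fin 4) (x y : V 4) (h : (x, y) ∈ O) :
    pdy j (fun x y => FF x y ^ 2) x y = L1 j x y := by
  rw [FF_sq]
  unfold pdy
  have h1 := S_deriv (hasDerivAt_aa_y j x y) (hasDerivAt_bb_y j x y)
    (by simp only [Function.update_eq_self]; exact PP_pos x y h)
  rw [h1.deriv]
  simp only [Function.update_eq_self]
  have hS := SS_pos x y h
  have hS' : S (aa x y) (bb x y) = SS x y := rfl
  rw [hS']
  unfold L1 cc ss day dby
  rw [AA_eq, BB_eq]
  fin_cases j <;> simp <;> field_simp

lemma pdx_L (j : Fin 4) (x y : V 4) (h : (x, y) ∈ O) :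
    pdx j (fun x y => FF x y ^ 2) x y = (AA x y * dax j x y + BB x y * dbx j x y) / 2 := by
  rw [FF_sq]
  unfold pdx
  have h1 := S_deriv (hasDerivAt_aa_x j x y h.1) (hasDerivAt_bb_x j x y h.1)
    (by simp only [Function.update_eq_self]; exact PP_pos x y h)
  rw [h1.deriv]
  simp only [Function.update_eq_self]
  have hS := SS_pos x y h
  have hS' : S (aa x y) (bb x y) = SS x y := rfl
  rw [hS', AA_eq, BB_eq]
  field_simp

/-- derivatives of the coefficients `cc j` in terms of those of `aa`, `bb` -/
noncomputable def dcc (j : Fin 4) (x y : V 4) (da db : ℝ) : ℝ :=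
  ![3 * bb x y * (bb x y * da - aa x y * db) / (2 * SS x y ^ 3),
    3 * bb x y * (bb x y * da - aa x y * db) / (2 * SS x y ^ 3),
    3 * aa x y * (aa x y * db - bb x y * da) / (2 * SS x y ^ 3),
    3 * aa x y * (aa x y * db - bb x y * da) / (2 * SS x y ^ 3)] j

lemma hasDerivAt_cc_y (j i : Fin 4) (x y : V 4) (h : (x, y) ∈ O) :
    HasDerivAt (fun t => cc j x (Function.update y i t)) (dcc j x y (day i x y) (dby i x y)) (y i) := by
  have hP : 0 < PP (aa x (Function.update y i (y i))) (bb x (Function.update y i (y i))) := by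
    simp only [Function.update_eq_self]; exact PP_pos x y h
  have h1 := A1_deriv (hasDerivAt_aa_y i x y) (hasDerivAt_bb_y i x y) hP
  have h2 := B1_deriv (hasDerivAt_aa_y i x y) (hasDerivAt_bb_y i x y) hP
  simp only [Function.update_eq_self] at h1 h2
  unfold cc dcc AA BB
  fin_cases j
  · exact h1
  · exact h1
  · exact h2
  · exact h2

lemma hasDerivAt_cc_x (j i : Fin 4) (x y : V 4) (h : (x, y) ∈ O) :
    HasDerivAt (fun t => cc j (Function.update x i t) y) (dcc j x y (dax i x y) (dbx i x y)) (x i) := by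
  have hP : 0 < PP (aa (Function.update x i (x i)) y) (bb (Function.update x i (x i)) y) := by
    simp only [Function.update_eq_self]; exact PP_pos x y h
  have h1 := A1_deriv (hasDerivAt_aa_x i x y h.1) (hasDerivAt_bb_x i x y h.1) hP
  have h2 := B1_deriv (hasDerivAt_aa_x i x y h.1) (hasDerivAt_bb_x i x y h.1) hP
  simp only [Function.update_eq_self] at h1 h2
  unfold cc dcc AA BB
  fin_cases j
  · exact h1
  · exact h1
  · exact h2
  · exact h2

lemma ss_pos (j : Fin 4) (x : V 4) (hx : x ∈ U) : 0 < ss j x := by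
  have h1 : 0 < x 1 := hx.1
  have h3 : 0 < x 3 := hx.2
  unfold ss
  fin_cases j <;> simp <;> positivity

lemma pdy_L1 (i j : Fin 4) (x y : V 4) (h : (x, y) ∈ O) :
    pdy i (L1 j) x y = (dcc j x y (day i x y) (dby i x y) * y j
      + cc j x y * (if i = j then 1 else 0)) / ss j x := by
  unfold pdy L1
  have h1 := hasDerivAt_cc_y j i x y h
  have h2 : HasDerivAt (fun t => (Function.update y i t) j) (if i = j then 1 else 0) (y i) := by
    by_cases hij : i = j
    · subst hij
      simp only [Function.update_self, if_true]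
      exact hasDerivAt_id _
    · rw [if_neg hij]
      have : (fun t => (Function.update y i t) j) = fun _ => y j := by
        funext t
        exact Function.update_of_ne (Ne.symm hij) _ _
      rw [this]
      exact hasDerivAt_const _ _
  have h3 := (h1.mul h2).div_const (ss j x)
  have h4 := h3.deriv
  simp only [Function.update_eq_self] at h4
  exact h4

/-- derivative of `1/ss j` in the direction `x i`, times `-1` -/
noncomputable def dss (j i : Fin 4) (x : V 4) : ℝ :=
  ![if i = 1 then 2 * x 1 else 0, if i = 1 then 2 * x 1 else 0,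
    if i = 3 then 2 * x 3 else 0, if i = 3 then 2 * x 3 else 0] j

lemma hasDerivAt_ss (j i : Fin 4) (x : V 4) :
    HasDerivAt (fun t => ss j (Function.update x i t)) (dss j i x) (x i) := by
  have key : ∀ k : Fin 4, HasDerivAt (fun t => (Function.update x i t k) ^ 2)
      (if i = k then 2 * x k else 0) (x i) := by
    intro k
    by_cases hik : i = k
    · subst hik
      simp only [Function.update_self, if_true]
      have := hasDerivAt_pow 2 (x i)
      simpa using this
    · rw [if_neg hik]
      have : (fun t => (Function.update x i t k) ^ 2) = fun _ => (x k) ^ 2 := by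
        funext t
        rw [Function.update_of_ne (Ne.symm hik)]
      rw [this]
      exact hasDerivAt_const _ _
  unfold ss dss
  fin_cases j
  · exact key 1
  · exact key 1
  · exact key 3
  · exact key 3

lemma pdx_L1 (i j : Fin 4) (x y : V 4) (h : (x, y) ∈ O) :
    pdx i (L1 j) x y = (dcc j x y (dax i x y) (dbx i x y) * y j * ss j x
      - cc j x y * y j * dss j i x) / (ss j x) ^ 2 := by
  unfold pdx L1
  have h1 := hasDerivAt_cc_x j i x y h
  have h2 := hasDerivAt_ss j i x
  have hs := ss_pos j x h.1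
  have h3 := (h1.mul_const (y j)).div h2 (by simp only [Function.update_eq_self]; exact hs.ne')
  have h4 := h3.deriv
  simp only [Function.update_eq_self] at h4
  exact h4

lemma fund_eq (x y : V 4) (h : (x, y) ∈ O) (i j : Fin 4) :
    fund FF x y i j = (if i = j then cc i x y / (2 * ss i x) else 0)
      + 3 / (2 * SS x y ^ 3) * (ww i x y * ww j x y) := by
  unfold fund
  rw [pdy_congr _ (L1 j) (fun x y h => pdy_L j x y h) i x y h, pdy_L1 i j x y h]
  have hS := SS_pos x y h
  have h1 : 0 < x 1 := h.1.1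
  have h3 : 0 < x 3 := h.1.2
  fin_cases i <;> fin_cases j <;> simp [dcc, day, dby, cc, ss, ww] <;> field_simp <;> ring


/-- the spray of the example -/
noncomputable def G0 (i : Fin 4) (x y : V 4) : ℝ :=
  ![-(y 0 * y 1) / x 1, (y 0 ^ 2 - y 1 ^ 2) / (2 * x 1),
    -(y 2 * y 3) / x 3, (y 2 ^ 2 - y 3 ^ 2) / (2 * x 3)] i

/-- the right-hand side of the spray equation -/
lemma spray_rhs (x y : V 4) (h : (x, y) ∈ O) (l : Fin 4) :
    (∑ k, y k * pdx k (pdy l (fun x y => FF x y ^ 2)) x y) - pdx l (fun x y => FF x y ^ 2) x y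
      = 4 * ∑ i, fund FF x y l i * G0 i x y := by
  have hS := SS_pos x y h
  have h1 : 0 < x 1 := h.1.1
  have h3 : 0 < x 3 := h.1.2
  simp_rw [fun k => pdx_congr _ (L1 l) (fun x y h => pdy_L l x y h) k x y h, pdx_L1 _ l x y h,
    pdx_L l x y h, fund_eq x y h]
  unfold dcc cc ww dax dbx dss ss G0
  generalize SS x y = s at *
  generalize AA x y = A at *
  generalize BB x y = B at *
  unfold aa bb
  fin_cases l <;> simp [Fin.sum_univ_four] <;> field_simp <;> ring

end Pool.Agent.H63.Fins
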