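import Mathlib
import Pool.Agent.H63.Fins.Metric

set_option autoImplicit false
set_option linter.unusedSimpArgs false
open Matrix MeasureTheory

namespace Pool.Agent.H63.Fins

lemma cc_pos (j : Fin 4) (x y : V 4) (h : (x, y) ∈ O) : 0 < cc j x y := by
  have hS := SS_pos x y h
  have hP := PP_pos x y h
  have ha : 0 ≤ aa x y := by unfold aa; positivity
  have hb : 0 ≤ bb x y := by unfold bb; positivity
  have hab : 0 < aa x y + bb x y := by
    by_contra hcon
    have ha0 : aa x y = 0 := by linarith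
    have hb0 : bb x y = 0 := by linarith
    rw [ha0, hb0] at hP
    simp [PP] at hP
  have h1 : 0 < AA x y := by
    rw [AA_eq]
    exact div_pos (by linarith) hS
  have h2 : 0 < BB x y := by
    rw [BB_eq]
    exact div_pos (by linarith) hS
  unfold cc
  fin_cases j
  · exact h1
  · exact h1
  · exact h2
  · exact h2

/-- quadratic form of the fundamental tensor -/
lemma quad_form (x y : V 4) (h : (x, y) ∈ O) (u v : V 4) :
    u ⬝ᵥ (fund FF x y *ᵥ v) = ∑ i, cc i x y / (2 * ss i x) * (u i * v i)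
      + 3 / (2 * SS x y ^ 3) * ((∑ i, ww i x y * u i) * (∑ i, ww i x y * v i)) := by
  simp only [dotProduct, Matrix.mulVec, fund_eq x y h, Fin.sum_univ_four]
  simp
  ring

lemma fund_posDef (x y : V 4) (h : (x, y) ∈ O) : (fund FF x y).PosDef := by
  apply Matrix.PosDef.of_dotProduct_mulVec_pos
  · ext i j
    simp only [Matrix.conjTranspose_apply, star_trivial]
    rw [fund_eq x y h, fund_eq x y h]
    by_cases hij : i = j
    · subst hij; rfl
    · rw [if_neg hij, if_neg (Ne.symm hij)]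
      ring
  · intro v hv
    rw [star_trivial, quad_form x y h]
    have hS := SS_pos x y h
    have h1 : 0 < ∑ i, cc i x y / (2 * ss i x) * (v i * v i) := by
      obtain ⟨k, hk⟩ : ∃ k, v k ≠ 0 := by
        by_contra hcon
        push Not at hcon
        exact hv (funext hcon)
      apply Finset.sum_pos'
      · intro i _
        have := cc_pos i x y h
        have := ss_pos i x h.1
        have := mul_self_nonneg (v i)
        positivity
      · refine ⟨k, Finset.mem_univ k, ?_⟩
        have := cc_pos k x y h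
        have := ss_pos k x h.1
        have := mul_self_pos.2 hk
        positivity
    have h2 : 0 ≤ 3 / (2 * SS x y ^ 3) * ((∑ i, ww i x y * v i) * (∑ i, ww i x y * v i)) := by
      apply mul_nonneg (by positivity) (mul_self_nonneg _)
    linarith

lemma fund_det_ne (x y : V 4) (h : (x, y) ∈ O) : (fund FF x y).det ≠ 0 :=
  (fund_posDef x y h).det_pos.ne'

/-- the spray of the example -/
lemma spray_eq (x y : V 4) (h : (x, y) ∈ O) (i : Fin 4) : spray FF x y i = G0 i x y := by
  unfold spray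
  simp_rw [spray_rhs x y h]
  have hdet := fund_det_ne x y h
  have h1 : (fund FF x y)⁻¹ * fund FF x y = 1 :=
    Matrix.nonsing_inv_mul _ (isUnit_iff_ne_zero.2 hdet)
  have h2 : (∑ l, (fund FF x y)⁻¹ i l * (4 * ∑ j, fund FF x y l j * G0 j x y))
      = 4 * (((fund FF x y)⁻¹ * fund FF x y) *ᵥ (fun j => G0 j x y)) i := by
    rw [← Matrix.mulVec_mulVec]
    simp only [Matrix.mulVec, dotProduct]
    rw [Finset.mul_sum]
    apply Finset.sum_congr rfl
    intro l _
    ring
  rw [h2, h1, Matrix.one_mulVec]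
  ring

/-- first `y`-derivatives of the spray -/
noncomputable def dG (i k : Fin 4) (x y : V 4) : ℝ :=
  !![-y 1 / x 1, -y 0 / x 1, 0, 0;
     y 0 / x 1, -y 1 / x 1, 0, 0;
     0, 0, -y 3 / x 3, -y 2 / x 3;
     0, 0, y 2 / x 3, -y 3 / x 3] i k

lemma hasDerivAt_upd (y : V 4) (k l : Fin 4) :
    HasDerivAt (fun t => (Function.update y k t) l) (if k = l then 1 else 0) (y k) := by
  by_cases hkl : k = l
  · subst hkl
    simp only [Function.update_self, if_true]
    exact hasDerivAt_id _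
  · rw [if_neg hkl]
    have : (fun t => (Function.update y k t) l) = fun _ => y l := by
      funext t
      exact Function.update_of_ne (Ne.symm hkl) _ _
    rw [this]
    exact hasDerivAt_const _ _

lemma pdy_G0 (i k : Fin 4) (x y : V 4) (hx : x ∈ U) : pdy k (G0 i) x y = dG i k x y := by
  have h1 : x 1 ≠ 0 := hx.1.ne'
  have h3 : x 3 ≠ 0 := hx.2.ne'
  unfold pdy G0 dG
  have u := hasDerivAt_upd y k
  fin_cases i
  · have h2 := ((u 0).mul (u 1)).neg.div_const (x 1)
    refine (HasDerivAt.deriv h2).trans ?_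
    fin_cases k <;> simp
  · have h2 := (((u 0).pow 2).sub ((u 1).pow 2)).div_const (2 * x 1)
    refine (HasDerivAt.deriv h2).trans ?_
    fin_cases k <;> simp <;> field_simp
  · have h2 := ((u 2).mul (u 3)).neg.div_const (x 3)
    refine (HasDerivAt.deriv h2).trans ?_
    fin_cases k <;> simp
  · have h2 := (((u 2).pow 2).sub ((u 3).pow 2)).div_const (2 * x 3)
    refine (HasDerivAt.deriv h2).trans ?_
    fin_cases k <;> simp <;> field_simp

/-- `x`-derivatives of the spray -/
noncomputable def dGx (i k : Fin 4) (x y : V 4) : ℝ :=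
  !![0, (y 0 * y 1) / x 1 ^ 2, 0, 0;
     0, -(y 0 ^ 2 - y 1 ^ 2) / (2 * x 1 ^ 2), 0, 0;
     0, 0, 0, (y 2 * y 3) / x 3 ^ 2;
     0, 0, 0, -(y 2 ^ 2 - y 3 ^ 2) / (2 * x 3 ^ 2)] i k

lemma pdx_G0 (i k : Fin 4) (x y : V 4) (hx : x ∈ U) : pdx k (G0 i) x y = dGx i k x y := by
  have h1 : x 1 ≠ 0 := hx.1.ne'
  have h3 : x 3 ≠ 0 := hx.2.ne'
  unfold pdx G0 dGx
  have u := hasDerivAt_upd x k
  fin_cases i
  · have h2 := (hasDerivAt_const (x k) (-(y 0 * y 1))).div (u 1)
      (by simp only [Function.update_eq_self]; exact h1)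
    refine (HasDerivAt.deriv h2).trans ?_
    fin_cases k <;> simp
  · have h2 := (hasDerivAt_const (x k) (y 0 ^ 2 - y 1 ^ 2)).div ((u 1).const_mul 2)
      (by simp only [Function.update_eq_self]; exact mul_ne_zero two_ne_zero h1)
    refine (HasDerivAt.deriv h2).trans ?_
    fin_cases k <;> simp <;> field_simp <;> ring
  · have h2 := (hasDerivAt_const (x k) (-(y 2 * y 3))).div (u 3)
      (by simp only [Function.update_eq_self]; exact h3)
    refine (HasDerivAt.deriv h2).trans ?_
    fin_cases k <;> simp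
  · have h2 := (hasDerivAt_const (x k) (y 2 ^ 2 - y 3 ^ 2)).div ((u 3).const_mul 2)
      (by simp only [Function.update_eq_self]; exact mul_ne_zero two_ne_zero h3)
    refine (HasDerivAt.deriv h2).trans ?_
    fin_cases k <;> simp <;> field_simp <;> ring

/-- second derivatives: of `dG i k` in `y j` -/
noncomputable def ddG (i k j : Fin 4) (x : V 4) : ℝ :=
  !![-(if j = 1 then 1 else 0) / x 1, -(if j = 0 then 1 else 0) / x 1, 0, 0;
     (if j = 0 then 1 else 0) / x 1, -(if j = 1 then 1 else 0) / x 1, 0, 0;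
     0, 0, -(if j = 3 then 1 else 0) / x 3, -(if j = 2 then 1 else 0) / x 3;
     0, 0, (if j = 2 then 1 else 0) / x 3, -(if j = 3 then 1 else 0) / x 3] i k

lemma pdy_dG (i k j : Fin 4) (x y : V 4) : pdy j (dG i k) x y = ddG i k j x := by
  unfold pdy dG ddG
  have u := hasDerivAt_upd y j
  fin_cases i <;> fin_cases k
  · exact ((u 1).neg.div_const (x 1)).deriv
  · exact ((u 0).neg.div_const (x 1)).deriv
  · exact (hasDerivAt_const (y j) (0:ℝ)).deriv
  · exact (hasDerivAt_const (y j) (0:ℝ)).deriv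
  · exact ((u 0).div_const (x 1)).deriv
  · exact ((u 1).neg.div_const (x 1)).deriv
  · exact (hasDerivAt_const (y j) (0:ℝ)).deriv
  · exact (hasDerivAt_const (y j) (0:ℝ)).deriv
  · exact (hasDerivAt_const (y j) (0:ℝ)).deriv
  · exact (hasDerivAt_const (y j) (0:ℝ)).deriv
  · exact ((u 3).neg.div_const (x 3)).deriv
  · exact ((u 2).neg.div_const (x 3)).deriv
  · exact (hasDerivAt_const (y j) (0:ℝ)).deriv
  · exact (hasDerivAt_const (y j) (0:ℝ)).deriv
  · exact ((u 2).div_const (x 3)).deriv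
  · exact ((u 3).neg.div_const (x 3)).deriv

/-- second derivatives: of `dG i k` in `x j` -/
noncomputable def dxG (i k j : Fin 4) (x y : V 4) : ℝ :=
  !![y 1 * (if j = 1 then 1 else 0) / x 1 ^ 2, y 0 * (if j = 1 then 1 else 0) / x 1 ^ 2, 0, 0;
     -y 0 * (if j = 1 then 1 else 0) / x 1 ^ 2, y 1 * (if j = 1 then 1 else 0) / x 1 ^ 2, 0, 0;
     0, 0, y 3 * (if j = 3 then 1 else 0) / x 3 ^ 2, y 2 * (if j = 3 then 1 else 0) / x 3 ^ 2;
     0, 0, -y 2 * (if j = 3 then 1 else 0) / x 3 ^ 2, y 3 * (if j = 3 then 1 else 0) / x 3 ^ 2] i k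

lemma deriv_const_div (x : V 4) (j l : Fin 4) (c : ℝ) (hl : x l ≠ 0) :
    deriv (fun t => c / (Function.update x j t) l) (x j)
      = -c * (if j = l then 1 else 0) / x l ^ 2 := by
  have u := hasDerivAt_upd x j l
  have h2 := (hasDerivAt_const (x j) c).div u (by simp only [Function.update_eq_self]; exact hl)
  refine (HasDerivAt.deriv h2).trans ?_
  by_cases hjl : j = l <;> simp [hjl]

lemma pdx_dG (i k j : Fin 4) (x y : V 4) (hx : x ∈ U) :
    pdx j (dG i k) x y = dxG i k j x y := by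
  have h1 : x 1 ≠ 0 := hx.1.ne'
  have h3 : x 3 ≠ 0 := hx.2.ne'
  unfold pdx dG dxG
  fin_cases i <;> fin_cases k
  · exact (deriv_const_div x j 1 (-y 1) h1).trans (by rw [neg_neg]; rfl)
  · exact (deriv_const_div x j 1 (-y 0) h1).trans (by rw [neg_neg]; rfl)
  · exact (hasDerivAt_const (x j) (0:ℝ)).deriv
  · exact (hasDerivAt_const (x j) (0:ℝ)).deriv
  · exact (deriv_const_div x j 1 (y 0) h1)
  · exact (deriv_const_div x j 1 (-y 1) h1).trans (by rw [neg_neg]; rfl)
  · exact (hasDerivAt_const (x j) (0:ℝ)).deriv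
  · exact (hasDerivAt_const (x j) (0:ℝ)).deriv
  · exact (hasDerivAt_const (x j) (0:ℝ)).deriv
  · exact (hasDerivAt_const (x j) (0:ℝ)).deriv
  · exact (deriv_const_div x j 3 (-y 3) h3).trans (by rw [neg_neg]; rfl)
  · exact (deriv_const_div x j 3 (-y 2) h3).trans (by rw [neg_neg]; rfl)
  · exact (hasDerivAt_const (x j) (0:ℝ)).deriv
  · exact (hasDerivAt_const (x j) (0:ℝ)).deriv
  · exact (deriv_const_div x j 3 (y 2) h3)
  · exact (deriv_const_div x j 3 (-y 3) h3).trans (by rw [neg_neg]; rfl)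

/-- explicit curvature -/
noncomputable def RR (x y : V 4) : Matrix (Fin 4) (Fin 4) ℝ :=
  !![-(y 1 ^ 2) / x 1 ^ 2, y 0 * y 1 / x 1 ^ 2, 0, 0;
     y 0 * y 1 / x 1 ^ 2, -(y 0 ^ 2) / x 1 ^ 2, 0, 0;
     0, 0, -(y 3 ^ 2) / x 3 ^ 2, y 2 * y 3 / x 3 ^ 2;
     0, 0, y 2 * y 3 / x 3 ^ 2, -(y 2 ^ 2) / x 3 ^ 2]

lemma riem_eq (x y : V 4) (h : (x, y) ∈ O) : riem FF x y = RR x y := by
  have hx := h.1
  have h1 : x 1 ≠ 0 := hx.1.ne'
  have h3 : x 3 ≠ 0 := hx.2.ne'
  have e1 : ∀ i k, pdx k (fun x y => spray FF x y i) x y = dGx i k x y := fun i k => by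
    rw [pdx_congr _ (G0 i) (fun x y h => spray_eq x y h i) k x y h, pdx_G0 i k x y hx]
  have e2 : ∀ i k (x y : V 4), (x, y) ∈ O → pdy k (fun x y => spray FF x y i) x y = dG i k x y :=
    fun i k x y h => by
      rw [pdy_congr _ (G0 i) (fun x y h => spray_eq x y h i) k x y h, pdy_G0 i k x y h.1]
  have e3 : ∀ i k j, pdx j (pdy k (fun x y => spray FF x y i)) x y = dxG i k j x y := fun i k j => by
    rw [pdx_congr _ (dG i k) (fun x y h => e2 i k x y h) j x y h, pdx_dG i k j x y hx]
  have e4 : ∀ i k j, pdy j (pdy k (fun x y => spray FF x y i)) x y = ddG i k j x := fun i k j => by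
    rw [pdy_congr _ (dG i k) (fun x y h => e2 i k x y h) j x y h, pdy_dG i k j x y]
  ext i k
  unfold riem
  simp_rw [e1, e3, e4, fun i k => e2 i k x y h, spray_eq x y h]
  simp only [Fin.sum_univ_four]
  unfold dGx dxG ddG dG G0 RR
  fin_cases i <;> fin_cases k <;> simp <;> field_simp <;> ring

lemma trace_RR (x y : V 4) : (RR x y).trace = -(aa x y + bb x y) := by
  unfold RR aa bb
  simp [Matrix.trace, Fin.sum_univ_four]
  ring

lemma RR_self (x y : V 4) : RR x y *ᵥ y = 0 := by
  unfold RR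
  ext i
  fin_cases i <;> simp [Matrix.mulVec, dotProduct, Fin.sum_univ_four] <;> ring

lemma ricci_neg (x y : V 4) (h : (x, y) ∈ O) : ricci FF x y < 0 := by
  unfold ricci
  rw [riem_eq x y h, trace_RR]
  have hP := PP_pos x y h
  have ha : 0 ≤ aa x y := by unfold aa; positivity
  have hb : 0 ≤ bb x y := by unfold bb; positivity
  have hab : 0 < aa x y + bb x y := by
    by_contra hcon
    have ha0 : aa x y = 0 := by linarith
    have hb0 : bb x y = 0 := by linarith
    rw [ha0, hb0] at hP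
    simp [PP] at hP
  linarith

end Pool.Agent.H63.Fins
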