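import Mathlib
import Pool.Agent.H63.Fins.Curv

set_option autoImplicit false
set_option linter.unusedSimpArgs false
open Matrix MeasureTheory

namespace Pool.Agent.H63.Fins

/-! ### Literal Ricci scalar -/

lemma ip_comm (x y : V 4) (h : (x, y) ∈ O) (u v : V 4) : ip FF x y u v = ip FF x y v u := by
  unfold ip
  rw [quad_form x y h, quad_form x y h]
  congr 1
  · apply Finset.sum_congr rfl
    intro i _
    ring
  · ring

lemma FF_sq' (x y : V 4) : FF x y ^ 2 = SS x y := congrFun (congrFun FF_sq x) y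

lemma ip_self (x y : V 4) (h : (x, y) ∈ O) : ip FF x y y y = FF x y ^ 2 := by
  rw [FF_sq']
  unfold ip
  rw [quad_form x y h]
  have hS := SS_pos x y h
  have h1 : 0 < x 1 := h.1.1
  have h3 : 0 < x 3 := h.1.2
  have hw : ∑ i, ww i x y * y i = 0 := by
    simp only [Fin.sum_univ_four, ww]
    unfold aa bb
    simp
    field_simp
    ring
  rw [hw]
  have hS2 : SS x y ^ 2 = PP (aa x y) (bb x y) := S_sq _ _ (PP_pos x y h)
  have e1 : ∑ i, cc i x y / (2 * ss i x) * (y i * y i) = (AA x y * aa x y + BB x y * bb x y) / 2 := by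
    simp only [Fin.sum_univ_four, cc, ss]
    generalize AA x y = A
    generalize BB x y = B
    unfold aa bb
    simp
    field_simp
    try ring
  rw [e1, AA_eq, BB_eq]
  have e2 : ((2 * aa x y + bb x y) / SS x y * aa x y + (aa x y + 2 * bb x y) / SS x y * bb x y) / 2
      = PP (aa x y) (bb x y) / SS x y := by
    unfold PP
    field_simp
    ring
  rw [e2, ← hS2]
  field_simp
  simp

lemma FF_pos (x y : V 4) (h : (x, y) ∈ O) : 0 < FF x y := by
  have hS := SS_pos x y h
  exact Real.sqrt_pos.2 hS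

/-- The literal Ricci scalar, the sum of flag curvatures over an orthonormal frame of the
orthogonal complement of `y` times `F²`, is the trace of the Riemann curvature. -/
lemma ricci_frame (x y : V 4) (h : (x, y) ∈ O) (e : Fin 3 → V 4) (he : IsFrame FF x y e) :
    FF x y ^ 2 * ∑ i, flagK FF x y (e i) = ricci FF x y := by
  have hN := FF_pos x y h
  obtain ⟨he1, he2⟩ := he
  set N := FF x y with hNdef
  set g := fund FF x y with hg
  set R := riem FF x y with hR
  have hRy : R *ᵥ y = 0 := by rw [hR, riem_eq x y h]; exact RR_self x y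
  -- the frame with y/N first
  let b : Fin 4 → V 4 := Fin.cons (N⁻¹ • y) e
  have hb : ∀ i j, b i ⬝ᵥ (g *ᵥ b j) = if i = j then 1 else 0 := by
    intro i j
    refine Fin.cases ?_ (fun i => ?_) i
    · refine Fin.cases ?_ (fun j => ?_) j
      · simp only [b, Fin.cons_zero, if_true]
        rw [Matrix.mulVec_smul, smul_dotProduct, dotProduct_smul]
        have := ip_self x y h
        unfold ip at this
        rw [← hg] at this
        rw [this]
        simp only [smul_eq_mul]
        rw [← hNdef]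
        field_simp
      · simp only [b, Fin.cons_zero, Fin.cons_succ]
        rw [smul_dotProduct]
        have := he2 j
        unfold ip at this
        rw [← hg] at this
        rw [this]
        simp [Fin.succ_ne_zero, Ne.symm (Fin.succ_ne_zero j)]
    · refine Fin.cases ?_ (fun j => ?_) j
      · simp only [b, Fin.cons_zero, Fin.cons_succ]
        rw [Matrix.mulVec_smul, dotProduct_smul]
        have h1 := ip_comm x y h (e i) y
        unfold ip at h1
        rw [← hg] at h1
        rw [h1]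
        have := he2 i
        unfold ip at this
        rw [← hg] at this
        rw [this]
        simp [Fin.succ_ne_zero]
      · simp only [b, Fin.cons_succ]
        have := he1 i j
        unfold ip at this
        rw [← hg] at this
        rw [this]
        simp [Fin.succ_inj]
  let E : Matrix (Fin 4) (Fin 4) ℝ := fun i j => b j i
  have hE : Eᵀ * g * E = 1 := by
    ext i j
    rw [Matrix.mul_assoc]
    have : (Eᵀ * (g * E)) i j = b i ⬝ᵥ (g *ᵥ b j) := rfl
    rw [this, hb, Matrix.one_apply]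
  have hE2 : E * (Eᵀ * g) = 1 := mul_eq_one_comm.1 hE
  have htr : R.trace = ∑ i, b i ⬝ᵥ (g *ᵥ (R *ᵥ b i)) := by
    calc R.trace = (R * (E * (Eᵀ * g))).trace := by rw [hE2, mul_one]
      _ = ((R * E) * (Eᵀ * g)).trace := by rw [Matrix.mul_assoc]
      _ = ((Eᵀ * g) * (R * E)).trace := Matrix.trace_mul_comm _ _
      _ = (Eᵀ * (g * (R * E))).trace := by rw [Matrix.mul_assoc]
      _ = ∑ i, b i ⬝ᵥ (g *ᵥ (R *ᵥ b i)) := by
          rw [Matrix.trace]
          apply Finset.sum_congr rfl
          intro i _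
          exact (rfl : (Eᵀ * (g * (R * E))) i i = b i ⬝ᵥ (g *ᵥ (R *ᵥ b i)))
  have h0 : b 0 ⬝ᵥ (g *ᵥ (R *ᵥ b 0)) = 0 := by
    simp only [b, Fin.cons_zero]
    rw [Matrix.mulVec_smul, hRy]
    simp
  have hflag : ∀ i : Fin 3, FF x y ^ 2 * flagK FF x y (e i) = b i.succ ⬝ᵥ (g *ᵥ (R *ᵥ b i.succ)) := by
    intro i
    unfold flagK
    rw [he2 i, he1 i i, ip_self x y h, ip_comm x y h]
    simp only [b, Fin.cons_succ, if_true]
    have : FF x y ^ 2 ≠ 0 := by positivity
    rw [mul_one, zero_pow two_ne_zero, sub_zero, mul_div_cancel₀ _ this]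
    rfl
  rw [Finset.mul_sum]
  refine (Finset.sum_congr rfl (fun i _ => hflag i)).trans ?_
  unfold ricci
  rw [← hR, htr, Fin.sum_univ_succ (n := 3), h0, zero_add]

/-! ### Determinant and distortion -/

lemma det4 (d w : Fin 4 → ℝ) (k : ℝ) :
    (Matrix.of fun i j : Fin 4 => (if i = j then d i else 0) + k * (w i * w j)).det
      = d 0 * d 1 * d 2 * d 3 + k * (w 0 ^ 2 * (d 1 * d 2 * d 3) + w 1 ^ 2 * (d 0 * d 2 * d 3)
        + w 2 ^ 2 * (d 0 * d 1 * d 3) + w 3 ^ 2 * (d 0 * d 1 * d 2)) := by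
  simp [Matrix.det_succ_row_zero, Fin.sum_univ_succ, Fin.succAbove]
  ring

/-- the determinant as a function of the two norms -/
noncomputable def DD (α β : ℝ) : ℝ :=
  (A1 α β) ^ 2 * (B1 α β) ^ 2 / 16 + 3 / (2 * S α β ^ 3) *
    ((α * β ^ 2 * (A1 α β) * (B1 α β) ^ 2 + α ^ 2 * β * (A1 α β) ^ 2 * (B1 α β)) / 8)

lemma det_fund (x y : V 4) (h : (x, y) ∈ O) :
    (fund FF x y).det = DD (aa x y) (bb x y) / ((x 1) ^ 2 * (x 3) ^ 2) ^ 2 := by
  have e : fund FF x y = Matrix.of fun i j : Fin 4 => (if i = j then cc i x y / (2 * ss i x) else 0)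
      + 3 / (2 * SS x y ^ 3) * (ww i x y * ww j x y) := by
    ext i j
    rw [fund_eq x y h]
    rfl
  rw [e, det4 (fun i => cc i x y / (2 * ss i x)) (fun i => ww i x y)]
  have hS := SS_pos x y h
  have h1 : 0 < x 1 := h.1.1
  have h3 : 0 < x 3 := h.1.2
  unfold DD
  have eA : A1 (aa x y) (bb x y) = AA x y := rfl
  have eB : B1 (aa x y) (bb x y) = BB x y := rfl
  have eS : S (aa x y) (bb x y) = SS x y := rfl
  rw [eA, eB, eS]
  have ha : y 0 ^ 2 = aa x y * (x 1) ^ 2 - y 1 ^ 2 := by unfold aa; field_simp; ring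
  have hb : y 2 ^ 2 = bb x y * (x 3) ^ 2 - y 3 ^ 2 := by unfold bb; field_simp; ring
  unfold cc ss ww
  generalize SS x y = s at *
  generalize AA x y = A at *
  generalize BB x y = B at *
  generalize aa x y = a at *
  generalize bb x y = b at *
  simp only [Matrix.cons_val]
  field_simp
  rw [ha, hb]
  ring

lemma det_pos' (x y : V 4) (h : (x, y) ∈ O) : 0 < DD (aa x y) (bb x y) := by
  have h1 := (fund_posDef x y h).det_pos
  rw [det_fund x y h] at h1
  have h2 : 0 < x 1 := h.1.1
  have h3 : 0 < x 3 := h.1.2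
  have h4 : 0 < ((x 1) ^ 2 * (x 3) ^ 2) ^ 2 := by positivity
  by_contra hcon
  have := div_nonpos_of_nonpos_of_nonneg (not_lt.1 hcon) h4.le
  linarith

/-- the base point -/
def xs : V 4 := ![0, 1, 0, 1]

lemma vol_scale (x : V 4) (hx : x ∈ U) :
    (volume {y : V 4 | FF x y < 1}).toReal
      = ((x 1) ^ 2 * (x 3) ^ 2) * (volume {y : V 4 | FF xs y < 1}).toReal := by
  have h1 : 0 < x 1 := hx.1
  have h3 : 0 < x 3 := hx.2
  let d : Fin 4 → ℝ := ![(x 1)⁻¹, (x 1)⁻¹, (x 3)⁻¹, (x 3)⁻¹]
  let f : V 4 →ₗ[ℝ] V 4 := Matrix.toLin' (Matrix.diagonal d)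
  have hdet : LinearMap.det f = ((x 1) ^ 2 * (x 3) ^ 2)⁻¹ := by
    simp only [f, LinearMap.det_toLin', Matrix.det_diagonal, Fin.prod_univ_four, d,
      Matrix.cons_val]
    field_simp
  have hpos : 0 < (x 1) ^ 2 * (x 3) ^ 2 := by positivity
  have hset : {y : V 4 | FF x y < 1} = f ⁻¹' {y : V 4 | FF xs y < 1} := by
    ext y
    simp only [Set.mem_ofPred_eq, Set.mem_preimage]
    have ea : aa xs (f y) = aa x y := by
      unfold aa
      simp only [f, Matrix.toLin'_apply, Matrix.mulVec_diagonal, d, xs, Matrix.cons_val]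
      field_simp
    have eb : bb xs (f y) = bb x y := by
      unfold bb
      simp only [f, Matrix.toLin'_apply, Matrix.mulVec_diagonal, d, xs, Matrix.cons_val]
      field_simp
    have hF : FF xs (f y) = FF x y := by
      unfold FF
      rw [ea, eb]
    rw [hF]
  rw [hset, MeasureTheory.Measure.addHaar_preimage_linearMap volume (by rw [hdet]; positivity)]
  rw [hdet, inv_inv, abs_of_pos hpos, ENNReal.toReal_mul, ENNReal.toReal_ofReal hpos.le]

lemma distortion_eq (x y : V 4) (h : (x, y) ∈ O) :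
    distortion FF x y = Real.log (Real.sqrt (DD (aa x y) (bb x y)) *
      (volume {y : V 4 | FF xs y < 1}).toReal /
      (volume (Metric.ball (0 : EuclideanSpace ℝ (Fin 4)) 1)).toReal) := by
  unfold distortion sigmaBH
  rw [vol_scale x h.1, det_fund x y h]
  have h1 : 0 < x 1 := h.1.1
  have h3 : 0 < x 3 := h.1.2
  have hpos : 0 < (x 1) ^ 2 * (x 3) ^ 2 := by positivity
  rw [Real.sqrt_div' _ (by positivity), Real.sqrt_sq hpos.le]
  congr 1
  rw [div_div_eq_mul_div, div_mul_eq_mul_div, div_div]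
  rw [show Real.sqrt (DD (aa x y) (bb x y)) * (x 1 ^ 2 * x 3 ^ 2 *
      (volume {y : V 4 | FF xs y < 1}).toReal)
      = (x 1 ^ 2 * x 3 ^ 2) * (Real.sqrt (DD (aa x y) (bb x y)) *
      (volume {y : V 4 | FF xs y < 1}).toReal) by ring]
  rw [mul_div_mul_left _ _ hpos.ne']

end Pool.Agent.H63.Fins
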