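import Mathlib
import Pool.Agent.H63.Fins.Props

set_option autoImplicit false
set_option linter.unusedSimpArgs false
open Matrix MeasureTheory

namespace Pool.Agent.H63.Fins

lemma geod_deriv_aa (x y : V 4) (ε : ℝ) (γ w : ℝ → V 4) (hγ : IsGeodesic U FF x y ε γ w) (t : ℝ)
    (ht : t ∈ Set.Ioo (-ε) ε) : HasDerivAt (fun t => aa (γ t) (w t)) 0 t := by
  obtain ⟨_, _, h⟩ := hγ
  obtain ⟨hU, hw, hg1, hw1⟩ := h t ht
  have hO : (γ t, w t) ∈ O := ⟨hU, hw⟩
  have g1 := hasDerivAt_pi.1 hg1 1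
  have w0 := hasDerivAt_pi.1 hw1 0
  have w1 := hasDerivAt_pi.1 hw1 1
  rw [spray_eq _ _ hO] at w0 w1
  have hx1 : 0 < γ t 1 := hU.1
  unfold aa
  have key := ((w0.pow 2).add (w1.pow 2)).div (g1.pow 2) (pow_ne_zero 2 hx1.ne')
  refine key.congr_deriv ?_
  simp only [G0, Pi.add_apply, Pi.pow_apply, Matrix.cons_val]
  rw [div_eq_zero_iff]
  left
  simp
  field_simp
  ring

lemma geod_deriv_bb (x y : V 4) (ε : ℝ) (γ w : ℝ → V 4) (hγ : IsGeodesic U FF x y ε γ w) (t : ℝ)
    (ht : t ∈ Set.Ioo (-ε) ε) : HasDerivAt (fun t => bb (γ t) (w t)) 0 t := by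
  obtain ⟨_, _, h⟩ := hγ
  obtain ⟨hU, hw, hg1, hw1⟩ := h t ht
  have hO : (γ t, w t) ∈ O := ⟨hU, hw⟩
  have g1 := hasDerivAt_pi.1 hg1 3
  have w0 := hasDerivAt_pi.1 hw1 2
  have w1 := hasDerivAt_pi.1 hw1 3
  rw [spray_eq _ _ hO] at w0 w1
  have hx1 : 0 < γ t 3 := hU.2
  unfold bb
  have key := ((w0.pow 2).add (w1.pow 2)).div (g1.pow 2) (pow_ne_zero 2 hx1.ne')
  refine key.congr_deriv ?_
  simp only [G0, Pi.add_apply, Pi.pow_apply, Matrix.cons_val]
  rw [div_eq_zero_iff]
  left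
  simp
  field_simp
  ring

lemma const_on (f : ℝ → ℝ) (ε : ℝ) (hε : 0 < ε)
    (hf : ∀ t ∈ Set.Ioo (-ε) ε, HasDerivAt f 0 t) (t : ℝ) (ht : t ∈ Set.Ioo (-ε) ε) :
    f t = f 0 := by
  apply isOpen_Ioo.is_const_of_deriv_eq_zero isPreconnected_Ioo
    (fun s hs => (hf s hs).differentiableAt.differentiableWithinAt)
    (fun s hs => (hf s hs).deriv) ht
  exact ⟨by linarith, hε⟩

lemma S_zero_part (x y : V 4) (ε : ℝ) (hε : 0 < ε) (γ w : ℝ → V 4)
    (hγ : IsGeodesic U FF x y ε γ w) :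
    HasDerivAt (fun t => distortion FF (γ t) (w t)) 0 0 := by
  have ha := const_on _ ε hε (geod_deriv_aa x y ε γ w hγ)
  have hb := const_on _ ε hε (geod_deriv_bb x y ε γ w hγ)
  have hc : (fun t => distortion FF (γ t) (w t)) =ᶠ[nhds 0]
      fun _ => distortion FF (γ 0) (w 0) := by
    have h0 : (0:ℝ) ∈ Set.Ioo (-ε) ε := ⟨by linarith, hε⟩
    filter_upwards [Ioo_mem_nhds h0.1 h0.2] with t ht
    obtain ⟨_, _, h⟩ := hγ
    obtain ⟨hU, hw, _, _⟩ := h t ht
    obtain ⟨hU0, hw0, _, _⟩ := h 0 h0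
    rw [distortion_eq _ _ ⟨hU, hw⟩, distortion_eq _ _ ⟨hU0, hw0⟩]
    have ea : aa (γ t) (w t) = aa (γ 0) (w 0) := ha t ht
    have eb : bb (γ t) (w t) = bb (γ 0) (w 0) := hb t ht
    rw [ea, eb]
  exact (hasDerivAt_const (0:ℝ) _).congr_of_eventuallyEq hc

lemma O_open : IsOpen O := by
  have h1 : IsOpen {p : V 4 × V 4 | p.1 ∈ U} := U_open.preimage continuous_fst
  have h2 : IsOpen {p : V 4 × V 4 | p.2 ≠ 0} := isOpen_ne.preimage continuous_snd
  exact h1.inter h2

/-- coordinate functions on the product -/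
lemma cd1 (i : Fin 4) (p : V 4 × V 4) : ContDiffAt ℝ (⊤ : ℕ∞) (fun p : V 4 × V 4 => p.1 i) p :=
  (contDiff_apply ℝ ℝ i).contDiffAt.comp p contDiffAt_fst

lemma cd2 (i : Fin 4) (p : V 4 × V 4) : ContDiffAt ℝ (⊤ : ℕ∞) (fun p : V 4 × V 4 => p.2 i) p :=
  (contDiff_apply ℝ ℝ i).contDiffAt.comp p contDiffAt_snd

lemma G0_contDiffAt (i : Fin 4) (p : V 4 × V 4) (hp : p.1 ∈ U) :
    ContDiffAt ℝ (⊤ : ℕ∞) (fun p : V 4 × V 4 => G0 i p.1 p.2) p := by
  have h1 : p.1 1 ≠ 0 := hp.1.ne'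
  have h3 : p.1 3 ≠ 0 := hp.2.ne'
  unfold G0
  fin_cases i
  · exact (((cd2 0 p).mul (cd2 1 p)).neg).div (cd1 1 p) h1
  · exact (((cd2 0 p).pow 2).sub ((cd2 1 p).pow 2)).div (contDiffAt_const.mul (cd1 1 p))
      (mul_ne_zero two_ne_zero h1)
  · exact (((cd2 2 p).mul (cd2 3 p)).neg).div (cd1 3 p) h3
  · exact (((cd2 2 p).pow 2).sub ((cd2 3 p).pow 2)).div (contDiffAt_const.mul (cd1 3 p))
      (mul_ne_zero two_ne_zero h3)

lemma geodesic_exists (x y : V 4) (h : (x, y) ∈ O) :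
    ∃ ε > 0, ∃ γ w : ℝ → V 4, IsGeodesic U FF x y ε γ w := by
  let v : V 4 × V 4 → V 4 × V 4 := fun p => (p.2, fun i => -2 * G0 i p.1 p.2)
  have hv : ContDiffAt ℝ 1 v (x, y) := by
    have h1 : ContDiffAt ℝ (⊤ : ℕ∞) v (x, y) := by
      apply ContDiffAt.prodMk contDiffAt_snd
      rw [contDiffAt_pi]
      intro i
      exact contDiffAt_const.mul (G0_contDiffAt i (x, y) h.1)
    exact h1.of_le (by exact_mod_cast le_top)
  obtain ⟨α, hα0, δ, hδ, hα⟩ :=
    hv.exists_forall_mem_closedBall_exists_eq_forall_mem_Ioo_hasDerivAt₀ 0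
  simp only [zero_sub, zero_add] at hα
  have h0 : (0:ℝ) ∈ Set.Ioo (-δ) δ := ⟨by linarith, hδ⟩
  have hcont : ContinuousAt α 0 := (hα 0 h0).continuousAt
  have hmem : ∀ᶠ t in nhds (0:ℝ), α t ∈ O := by
    apply hcont.eventually
    rw [hα0]
    exact O_open.mem_nhds h
  obtain ⟨η, hη, hηm⟩ := Metric.eventually_nhds_iff.1 hmem
  refine ⟨min δ η, lt_min hδ hη, fun t => (α t).1, fun t => (α t).2, ?_, ?_, ?_⟩
  · simp only [hα0]
  · simp only [hα0]
  · intro t ht
    have ht1 : t ∈ Set.Ioo (-δ) δ := by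
      have := min_le_left δ η
      exact ⟨by linarith [ht.1], by linarith [ht.2]⟩
    have ht2 : α t ∈ O := by
      apply hηm
      rw [Real.dist_eq, sub_zero, abs_lt]
      have := min_le_right δ η
      exact ⟨by linarith [ht.1], by linarith [ht.2]⟩
    have hd := hα t ht1
    refine ⟨ht2.1, ht2.2, ?_, ?_⟩
    · exact hd.fst
    · have h2 := hd.snd
      have e : (fun i => -2 * spray FF (α t).1 (α t).2 i) = (v (α t)).2 := by
        funext i
        simp only [v]
        rw [spray_eq _ _ ht2]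
      rw [e]
      exact h2

theorem S_zero (x y : V 4) (h : (x, y) ∈ O) : HasSCurvature U FF x y 0 :=
  ⟨geodesic_exists x y h, fun ε hε γ w hγ => S_zero_part x y ε hε γ w hγ⟩

/-! ### Finsler, homogeneous, not Riemannian -/

lemma FF_smooth : ContDiffOn ℝ (⊤ : ℕ∞) (fun p : V 4 × V 4 => FF p.1 p.2) {p | p.1 ∈ U ∧ p.2 ≠ 0} := by
  intro p hp
  apply ContDiffAt.contDiffWithinAt
  have hO : (p.1, p.2) ∈ O := hp
  have h1 : p.1 1 ≠ 0 := hp.1.1.ne'
  have h3 : p.1 3 ≠ 0 := hp.1.2.ne'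
  have ha : ContDiffAt ℝ (⊤ : ℕ∞) (fun p : V 4 × V 4 => aa p.1 p.2) p := by
    unfold aa
    exact (((cd2 0 p).pow 2).add ((cd2 1 p).pow 2)).div ((cd1 1 p).pow 2) (pow_ne_zero 2 h1)
  have hb : ContDiffAt ℝ (⊤ : ℕ∞) (fun p : V 4 × V 4 => bb p.1 p.2) p := by
    unfold bb
    exact (((cd2 2 p).pow 2).add ((cd2 3 p).pow 2)).div ((cd1 3 p).pow 2) (pow_ne_zero 2 h3)
  have hP : ContDiffAt ℝ (⊤ : ℕ∞) (fun p : V 4 × V 4 => PP (aa p.1 p.2) (bb p.1 p.2)) p := by
    unfold PP
    exact ((ha.pow 2).add (ha.mul hb)).add (hb.pow 2)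
  have hS : ContDiffAt ℝ (⊤ : ℕ∞) (fun p : V 4 × V 4 => S (aa p.1 p.2) (bb p.1 p.2)) p :=
    hP.sqrt (PP_pos _ _ hO).ne'
  exact hS.sqrt (S_pos _ _ (PP_pos _ _ hO)).ne'

lemma FF_homog (x y : V 4) (c : ℝ) (hc : 0 < c) : FF x (c • y) = c * FF x y := by
  have ha : aa x (c • y) = c ^ 2 * aa x y := by
    unfold aa; simp only [Pi.smul_apply, smul_eq_mul]; ring
  have hb : bb x (c • y) = c ^ 2 * bb x y := by
    unfold bb; simp only [Pi.smul_apply, smul_eq_mul]; ring
  unfold FF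
  have hS : S (aa x (c • y)) (bb x (c • y)) = c ^ 2 * S (aa x y) (bb x y) := by
    unfold S
    have : PP (aa x (c • y)) (bb x (c • y)) = (c ^ 2) ^ 2 * PP (aa x y) (bb x y) := by
      rw [ha, hb]; unfold PP; ring
    rw [this, Real.sqrt_mul (by positivity), Real.sqrt_sq (by positivity)]
  rw [hS, Real.sqrt_mul (by positivity), Real.sqrt_sq hc.le]

theorem FF_finsler : IsFinsler U FF where
  nonneg := fun _ _ _ => Real.sqrt_nonneg _
  smooth := FF_smooth
  homog := fun x _ y c hc => FF_homog x y c hc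
  posDef := fun x hx y hy => fund_posDef x y ⟨hx, hy⟩

/-- affine isometries -/
def aff (l m c d : ℝ) (z : V 4) : V 4 := fun i => ![l, l, m, m] i * z i + ![c, 0, d, 0] i

lemma aff_fderiv (l m c d : ℝ) (z v : V 4) :
    fderiv ℝ (aff l m c d) z v = fun i => ![l, l, m, m] i * v i := by
  have h : HasFDerivAt (aff l m c d)
      (ContinuousLinearMap.pi fun i => (![l, l, m, m] i) • (ContinuousLinearMap.proj i :
        V 4 →L[ℝ] ℝ)) z := by
    rw [hasFDerivAt_pi]
    intro i
    have h1 : HasFDerivAt (fun z : V 4 => z i) (ContinuousLinearMap.proj i : V 4 →L[ℝ] ℝ) z :=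
      hasFDerivAt_apply i z
    exact (h1.const_mul _).add_const _
  rw [h.fderiv]
  funext i
  simp

lemma aff_contDiff (l m c d : ℝ) : ContDiff ℝ (⊤ : ℕ∞) (aff l m c d) := by
  rw [contDiff_pi]
  intro i
  exact (contDiff_const.mul (contDiff_apply ℝ ℝ i)).add contDiff_const

lemma aff_mem (l m c d : ℝ) (hl : 0 < l) (hm : 0 < m) (z : V 4) (hz : z ∈ U) :
    aff l m c d z ∈ U := by
  obtain ⟨h1, h3⟩ := hz
  constructor
  · simp [aff]; positivity
  · simp [aff]; positivity

lemma aff_F (l m c d : ℝ) (hl : 0 < l) (hm : 0 < m) (z v : V 4) (hz : z ∈ U) :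
    FF (aff l m c d z) (fun i => ![l, l, m, m] i * v i) = FF z v := by
  have h1 : z 1 ≠ 0 := hz.1.ne'
  have h3 : z 3 ≠ 0 := hz.2.ne'
  unfold FF
  congr 2
  · simp [aff, aa]
    field_simp
  · simp [aff, bb]
    field_simp

theorem FF_homogeneous : IsHomogeneous U FF := by
  intro x hx x' hx'
  have h1 : 0 < x 1 := hx.1
  have h3 : 0 < x 3 := hx.2
  have h1' : 0 < x' 1 := hx'.1
  have h3' : 0 < x' 3 := hx'.2
  set l := x' 1 / x 1 with hl
  set m := x' 3 / x 3 with hm
  have hl0 : 0 < l := by positivity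
  have hm0 : 0 < m := by positivity
  set c := x' 0 - l * x 0 with hc
  set d := x' 2 - m * x 2 with hd
  refine ⟨aff l m c d, aff l⁻¹ m⁻¹ (-(l⁻¹ * c)) (-(m⁻¹ * d)), (aff_contDiff _ _ _ _).contDiffOn,
    (aff_contDiff _ _ _ _).contDiffOn, ?_, ?_, ?_, ?_, ?_, ?_⟩
  · intro z hz; exact aff_mem l m c d hl0 hm0 z hz
  · intro z hz; exact aff_mem _ _ _ _ (by positivity) (by positivity) z hz
  · intro z _
    funext i
    fin_cases i <;> simp [aff] <;> field_simp <;> ring
  · intro z _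
    funext i
    fin_cases i <;> simp [aff] <;> field_simp <;> ring
  · intro z hz v
    rw [aff_fderiv]
    exact aff_F l m c d hl0 hm0 z v hz
  · funext i
    fin_cases i
    · simp [aff, hc]
    · simp [aff, hl]; field_simp
    · simp [aff, hd]
    · simp [aff, hm]; field_simp

theorem FF_not_riemannian : ¬ IsRiemannian U FF := by
  rintro ⟨h, hh⟩
  have hxs : xs ∈ U := ⟨by simp [xs], by simp [xs]⟩
  have hq := hh xs hxs
  set q : V 4 → ℝ := fun y => y ⬝ᵥ (h xs *ᵥ y) with hqdef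
  have par : ∀ u v : V 4, q (u + v) + q (u - v) = 2 * q u + 2 * q v := by
    intro u v
    simp only [hqdef, Matrix.mulVec_add, Matrix.mulVec_sub, dotProduct_add, add_dotProduct,
      dotProduct_sub, sub_dotProduct]
    ring
  have hval : ∀ (a b c d : ℝ), FF xs ![a, b, c, d]
      = Real.sqrt (Real.sqrt (PP (a ^ 2 + b ^ 2) (c ^ 2 + d ^ 2))) := by
    intro a b c d
    simp [FF, S, aa, bb, xs]
  have hsq : ∀ y : V 4, 0 < FF xs y → q y = FF xs y ^ 2 := by
    intro y hy
    have h1 := hq y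
    have h2 : 0 < Real.sqrt (q y) := by
      have : FF xs y = Real.sqrt (q y) := h1
      rw [← this]; exact hy
    have h3 : 0 < q y := Real.sqrt_pos.1 h2
    have : FF xs y = Real.sqrt (q y) := h1
    rw [this, Real.sq_sqrt h3.le]
  have p3 : (0:ℝ) < Real.sqrt 3 := Real.sqrt_pos.2 (by norm_num)
  have e1 : q ![1, 0, 1, 0] = Real.sqrt 3 := by
    have hv := hval 1 0 1 0
    have hPP : PP ((1:ℝ) ^ 2 + 0 ^ 2) (1 ^ 2 + 0 ^ 2) = 3 := by unfold PP; norm_num
    rw [hPP] at hv
    rw [hsq _ (by rw [hv]; exact Real.sqrt_pos.2 p3), hv, Real.sq_sqrt p3.le]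
  have e2 : q ![1, 0, -1, 0] = Real.sqrt 3 := by
    have hv := hval 1 0 (-1) 0
    have hPP : PP ((1:ℝ) ^ 2 + 0 ^ 2) ((-1) ^ 2 + 0 ^ 2) = 3 := by unfold PP; norm_num
    rw [hPP] at hv
    rw [hsq _ (by rw [hv]; exact Real.sqrt_pos.2 p3), hv, Real.sq_sqrt p3.le]
  have e3 : q ![1, 0, 0, 0] = 1 := by
    have hv := hval 1 0 0 0
    have hPP : PP ((1:ℝ) ^ 2 + 0 ^ 2) (0 ^ 2 + 0 ^ 2) = 1 := by unfold PP; norm_num
    rw [hPP, Real.sqrt_one, Real.sqrt_one] at hv
    rw [hsq _ (by rw [hv]; norm_num), hv]; norm_num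
  have e4 : q ![0, 0, 1, 0] = 1 := by
    have hv := hval 0 0 1 0
    have hPP : PP ((0:ℝ) ^ 2 + 0 ^ 2) (1 ^ 2 + 0 ^ 2) = 1 := by unfold PP; norm_num
    rw [hPP, Real.sqrt_one, Real.sqrt_one] at hv
    rw [hsq _ (by rw [hv]; norm_num), hv]; norm_num
  have h5 := par ![1, 0, 0, 0] ![0, 0, 1, 0]
  have a1 : (![1, 0, 0, 0] : V 4) + ![0, 0, 1, 0] = ![1, 0, 1, 0] := by
    funext i; fin_cases i <;> simp
  have a2 : (![1, 0, 0, 0] : V 4) - ![0, 0, 1, 0] = ![1, 0, -1, 0] := by
    funext i; fin_cases i <;> simp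
  rw [a1, a2, e1, e2, e3, e4] at h5
  have h6 : Real.sqrt 3 = 2 := by linarith
  have h7 := Real.sq_sqrt (show (0:ℝ) ≤ 3 by norm_num)
  rw [h6] at h7
  norm_num at h7

lemma sigma_pos (x : V 4) (hx : x ∈ U) : 0 < sigmaBH FF x := by
  have h1 : 0 < x 1 := hx.1
  have h3 : 0 < x 3 := hx.2
  unfold sigmaBH
  apply div_pos
  · apply ENNReal.toReal_pos
    · exact (Metric.measure_ball_pos volume _ one_pos).ne'
    · exact measure_ball_lt_top.ne
  · apply ENNReal.toReal_pos
    · have hsub : Metric.ball (0 : V 4) (min (x 1) (x 3) / 2) ⊆ {y : V 4 | FF x y < 1} := by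
        intro y hy
        rw [mem_ball_zero_iff] at hy
        have hr1 : min (x 1) (x 3) / 2 ≤ x 1 / 2 := by
          have := min_le_left (x 1) (x 3); linarith
        have hr3 : min (x 1) (x 3) / 2 ≤ x 3 / 2 := by
          have := min_le_right (x 1) (x 3); linarith
        have hi : ∀ i, |y i| ≤ ‖y‖ := fun i => norm_le_pi_norm y i
        have hsq1 : ∀ i, y i ^ 2 ≤ (x 1 / 2) ^ 2 := by
          intro i
          rw [← sq_abs (y i)]
          exact pow_le_pow_left₀ (abs_nonneg _) (by linarith [hi i]) 2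
        have hsq3 : ∀ i, y i ^ 2 ≤ (x 3 / 2) ^ 2 := by
          intro i
          rw [← sq_abs (y i)]
          exact pow_le_pow_left₀ (abs_nonneg _) (by linarith [hi i]) 2
        have ha0 : 0 ≤ aa x y := by unfold aa; positivity
        have hb0 : 0 ≤ bb x y := by unfold bb; positivity
        have ha : aa x y ≤ 1 / 2 := by
          unfold aa
          rw [div_le_iff₀ (by positivity)]
          have := hsq1 0
          have := hsq1 1
          nlinarith
        have hb : bb x y ≤ 1 / 2 := by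
          unfold bb
          rw [div_le_iff₀ (by positivity)]
          have := hsq3 2
          have := hsq3 3
          nlinarith
        have hP : PP (aa x y) (bb x y) < 1 := by
          unfold PP
          nlinarith
        have hS : S (aa x y) (bb x y) < 1 := by
          unfold S
          rw [Real.sqrt_lt' one_pos]
          simpa using hP
        show FF x y < 1
        unfold FF
        rw [Real.sqrt_lt' one_pos]
        simpa using hS
      have hpos := Metric.measure_ball_pos (volume : Measure (V 4)) (0 : V 4)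
        (show 0 < min (x 1) (x 3) / 2 by
          have := lt_min h1 h3; linarith)
      exact (lt_of_lt_of_le hpos (measure_mono hsub)).ne'
    · have hsub : {y : V 4 | FF x y < 1} ⊆ Metric.closedBall (0 : V 4) (x 1 + x 3) := by
        intro y hy
        have hy' : FF x y < 1 := hy
        unfold FF at hy'
        rw [Real.sqrt_lt' one_pos] at hy'
        have hS : S (aa x y) (bb x y) < 1 := by simpa using hy'
        unfold S at hS
        rw [Real.sqrt_lt' one_pos] at hS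
        have hP : PP (aa x y) (bb x y) < 1 := by simpa using hS
        have ha0 : 0 ≤ aa x y := by unfold aa; positivity
        have hb0 : 0 ≤ bb x y := by unfold bb; positivity
        unfold PP at hP
        have hab := mul_nonneg ha0 hb0
        have ha : aa x y < 1 := by nlinarith
        have hb : bb x y < 1 := by nlinarith
        unfold aa at ha
        unfold bb at hb
        rw [div_lt_one (by positivity)] at ha hb
        rw [mem_closedBall_zero_iff, pi_norm_le_iff_of_nonneg (by positivity)]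
        intro i
        rw [Real.norm_eq_abs]
        apply abs_le_of_sq_le_sq _ (by positivity)
        fin_cases i
        · show y 0 ^ 2 ≤ _
          nlinarith [sq_nonneg (y 1), mul_pos h1 h3]
        · show y 1 ^ 2 ≤ _
          nlinarith [sq_nonneg (y 0), mul_pos h1 h3]
        · show y 2 ^ 2 ≤ _
          nlinarith [sq_nonneg (y 3), mul_pos h1 h3]
        · show y 3 ^ 2 ≤ _
          nlinarith [sq_nonneg (y 2), mul_pos h1 h3]
      exact (lt_of_le_of_lt (measure_mono hsub) measure_closedBall_lt_top).ne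

lemma U_connected : IsConnected U := by
  refine ⟨⟨xs, by simp [xs], by simp [xs]⟩, ?_⟩
  have hconv : Convex ℝ U := by
    intro x hx y hy a b ha hb hab
    obtain ⟨h1, h3⟩ := hx
    obtain ⟨h1', h3'⟩ := hy
    constructor
    · simp only [Pi.add_apply, Pi.smul_apply, smul_eq_mul]
      rcases eq_or_lt_of_le ha with h | h
      · rw [← h] at hab ⊢
        have : b = 1 := by linarith
        rw [this]; linarith
      · have := mul_pos h h1
        have := mul_nonneg hb h1'.le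
        linarith
    · simp only [Pi.add_apply, Pi.smul_apply, smul_eq_mul]
      rcases eq_or_lt_of_le ha with h | h
      · rw [← h] at hab ⊢
        have : b = 1 := by linarith
        rw [this]; linarith
      · have := mul_pos h h3
        have := mul_nonneg hb h3'.le
        linarith
  exact hconv.isPreconnected

end Pool.Agent.H63.Fins
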